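import Mathlib
import Pool.Agent.Y794.Sm.Stmts

/-! Theta series of a lattice in an inner product space (`StGauss`). -/

set_option autoImplicit false

open Real Complex

namespace Pool.Agent.Y274.Sm.Gauss

theorem geom_int (r : ℝ) (h0 : 0 < r) (h1 : r < 1) :
    HasSum (fun k : ℤ => if k = 0 then (0 : ℝ) else r ^ k.natAbs) (2 * r / (1 - r)) := by
  have hg : HasSum (fun n : ℕ => r ^ (n + 1)) (r / (1 - r)) := by
    have h := (hasSum_geometric_of_lt_one h0.le h1).mul_left r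
    have e : r * (1 - r)⁻¹ = r / (1 - r) := by rw [div_eq_mul_inv]
    rw [e] at h
    refine h.congr_fun ?_ |> fun h => h
    intro n
    rw [pow_succ]; ring
  have hp : HasSum (fun n : ℕ => if (n : ℤ) = 0 then (0 : ℝ) else r ^ (n : ℤ).natAbs)
      (r / (1 - r)) := by
    have h := (hasSum_nat_add_iff (f := fun n : ℕ => if (n : ℤ) = 0 then (0 : ℝ)
      else r ^ (n : ℤ).natAbs) (g := r / (1 - r)) 1).1 ?_
    · simpa using h
    · refine hg.congr_fun ?_ |> fun h => h
      intro n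
      have : ((n + 1 : ℕ) : ℤ) ≠ 0 := by positivity
      simp only [if_neg this, Int.natAbs_natCast]
  have hn : HasSum (fun n : ℕ => if (-((n : ℤ) + 1)) = 0 then (0 : ℝ)
      else r ^ (-((n : ℤ) + 1)).natAbs) (r / (1 - r)) := by
    refine hg.congr_fun ?_ |> fun h => h
    intro n
    have h2 : (-((n : ℤ) + 1)) ≠ 0 := by omega
    have h3 : (-((n : ℤ) + 1)).natAbs = n + 1 := by omega
    rw [if_neg h2, h3]
  have := HasSum.of_nat_of_neg_add_one (f := fun k : ℤ => if k = 0 then (0 : ℝ) else r ^ k.natAbs)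
    hp hn
  have e : 2 * r / (1 - r) = r / (1 - r) + r / (1 - r) := by ring
  rw [e]
  exact this

/-- Gaussian sums over shifted integers are summable. -/
theorem gauss_summable (c : ℝ) (hc : 0 < c) (y : ℝ) :
    Summable (fun k : ℤ => Real.exp (-c * ((k : ℝ) + y) ^ 2)) := by
  have h0 : 0 < Real.exp (-(c / 2)) := Real.exp_pos _
  have h1 : Real.exp (-(c / 2)) < 1 := by
    rw [Real.exp_lt_one_iff]; linarith
  have hs : Summable (fun k : ℤ => (Real.exp (c * y ^ 2)) *
      (if k = 0 then (1 : ℝ) else 0) + Real.exp (c * y ^ 2) *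
      (if k = 0 then (0 : ℝ) else Real.exp (-(c / 2)) ^ k.natAbs)) := by
    refine Summable.add ?_ ((geom_int _ h0 h1).summable.mul_left _)
    refine Summable.mul_left _ ?_
    exact summable_of_ne_finset_zero (s := {0}) (by intro b hb; simp at hb; simp [hb])
  refine Summable.of_nonneg_of_le (fun k => (Real.exp_pos _).le) (fun k => ?_) hs
  by_cases hk : k = 0
  · subst hk
    simp only [Int.cast_zero, zero_add, if_true, mul_one, mul_zero, add_zero]
    apply Real.exp_le_exp.2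
    nlinarith [sq_nonneg y]
  · simp only [if_neg hk, mul_zero, zero_add]
    rw [← Real.exp_nat_mul, ← Real.exp_add]
    apply Real.exp_le_exp.2
    have h2 : ((k.natAbs : ℕ) : ℝ) = |(k : ℝ)| := by
      rw [Nat.cast_natAbs]; simp
    rw [h2]
    have h3 : (1 : ℝ) ≤ |(k : ℝ)| := by
      have := Int.one_le_abs hk
      exact_mod_cast this
    have h4 : |(k : ℝ)| ≤ (k : ℝ) ^ 2 := by
      rw [← sq_abs]; nlinarith
    have h5 : (k : ℝ) ^ 2 / 2 - y ^ 2 ≤ ((k : ℝ) + y) ^ 2 := by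
      nlinarith [sq_nonneg ((k : ℝ) + 2 * y)]
    nlinarith

theorem gauss1 (q : ℝ) (hq : 0 < q) :
    ∃ A B : ℝ, 0 ≤ A ∧ 0 < B ∧ ∀ s : ℝ, 0 < s → s ≤ 1 → ∀ y : ℝ,
      |∑' k : ℤ, Real.exp (-(s * q) * ((k : ℝ) + y) ^ 2) - Real.sqrt (π / q) * (1 / Real.sqrt s)| ≤
        A * Real.exp (-B / s) * (Real.sqrt (π / q) * (1 / Real.sqrt s)) := by
  have hr0 : Real.exp (-(π ^ 2 / q)) < 1 := by
    rw [Real.exp_lt_one_iff]
    have : 0 < π ^ 2 / q := by positivity
    linarith
  refine ⟨2 / (1 - Real.exp (-(π ^ 2 / q))), π ^ 2 / q, ?_, by positivity, ?_⟩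
  · have : 0 < 1 - Real.exp (-(π ^ 2 / q)) := by linarith
    positivity
  intro s hs hs1 y
  set a : ℝ := π / (s * q) with ha
  have hsq : 0 < s * q := by positivity
  have hapos : 0 < a := by positivity
  have key := Complex.tsum_exp_neg_quadratic (a := (a : ℂ)) (by simpa using hapos) (-I * y)
  have e1 : (1 : ℂ) / (a : ℂ) ^ (1 / 2 : ℂ) = ((1 / Real.sqrt a : ℝ) : ℂ) := by
    have : ((a : ℂ) ^ (1 / 2 : ℂ)) = ((a ^ (1 / 2 : ℝ) : ℝ) : ℂ) := by
      rw [Complex.ofReal_cpow hapos.le]; norm_num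
    rw [this, ← Real.sqrt_eq_rpow]
    push_cast
    rfl
  have e2 : (∑' n : ℤ, cexp (-π / (a : ℂ) * ((n : ℂ) + I * (-I * y)) ^ 2)) =
      ((∑' k : ℤ, Real.exp (-(s * q) * ((k : ℝ) + y) ^ 2) : ℝ) : ℂ) := by
    rw [Complex.ofReal_tsum]
    refine tsum_congr fun n => ?_
    rw [Complex.ofReal_exp]
    congr 1
    have h1 : I * (-I * (y : ℂ)) = y := by
      linear_combination (-(y : ℂ)) * Complex.I_sq
    have h2 : (-(π : ℂ) / (a : ℂ)) = -((s : ℂ) * q) := by
      rw [ha]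
      push_cast
      have : (π : ℂ) ≠ 0 := by exact_mod_cast Real.pi_ne_zero
      have hsqc : ((s : ℂ) * q) ≠ 0 := by exact_mod_cast hsq.ne'
      field_simp
    rw [h1, h2]
    push_cast
    ring
  rw [e1, e2] at key
  -- the sum on the dual side
  set r : ℝ := Real.exp (-(π * a)) with hr
  have hrpos : 0 < r := Real.exp_pos _
  have hrle : r ≤ Real.exp (-(π ^ 2 / q)) := by
    apply Real.exp_le_exp.2
    have : π ^ 2 / q ≤ π * a := by
      rw [ha, ← mul_div_assoc, ← pow_two]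
      apply div_le_div_of_nonneg_left (by positivity) hsq
      nlinarith
    linarith
  have hr1 : r < 1 := lt_of_le_of_lt hrle hr0
  have hterm : ∀ n : ℤ, ‖cexp (-π * a * n ^ 2 + 2 * π * (-I * y) * n) - (if n = 0 then 1 else 0)‖ ≤
      (if n = 0 then (0 : ℝ) else r ^ n.natAbs) := by
    intro n
    by_cases hn : n = 0
    · subst hn; simp
    · rw [if_neg hn, if_neg hn, sub_zero, Complex.norm_exp]
      have : (-π * a * (n : ℂ) ^ 2 + 2 * π * (-I * y) * n).re = -(π * a) * (n : ℝ) ^ 2 := by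
        have : (-π * a * (n : ℂ) ^ 2 + 2 * π * (-I * y) * n) =
          ((-(π * a) * (n : ℝ) ^ 2 : ℝ) : ℂ) + ((-(2 * π * y * n) : ℝ) : ℂ) * I := by
          push_cast; ring
        rw [this]
        simp only [Complex.add_re, Complex.ofReal_re, Complex.mul_re, Complex.I_re, mul_zero,
          Complex.ofReal_im, zero_mul, sub_zero, add_zero]
      rw [this, hr, ← Real.exp_nat_mul]
      apply Real.exp_le_exp.2
      have h2 : ((n.natAbs : ℕ) : ℝ) = |(n : ℝ)| := by
        rw [Nat.cast_natAbs]; simp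
      rw [h2]
      have h3 : (1 : ℝ) ≤ |(n : ℝ)| := by
        have := Int.one_le_abs hn
        exact_mod_cast this
      have h4 : |(n : ℝ)| ≤ (n : ℝ) ^ 2 := by
        rw [← sq_abs]; nlinarith
      have : 0 < π * a := by positivity
      nlinarith
  have hS := (geom_int r hrpos hr1)
  have hsum1 : Summable (fun n : ℤ => cexp (-π * a * n ^ 2 + 2 * π * (-I * y) * n) -
      (if n = 0 then 1 else 0)) :=
    Summable.of_norm_bounded hS.summable hterm
  have hsum2 : HasSum (fun n : ℤ => (if n = 0 then (1 : ℂ) else 0)) 1 := by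
    have := hasSum_ite_eq (0 : ℤ) (1 : ℂ)
    exact this
  have hsum3 : (∑' n : ℤ, cexp (-π * a * n ^ 2 + 2 * π * (-I * y) * n)) - 1 =
      ∑' n : ℤ, (cexp (-π * a * n ^ 2 + 2 * π * (-I * y) * n) - (if n = 0 then 1 else 0)) := by
    have h := (hsum1.hasSum.add hsum2).tsum_eq
    simp only [sub_add_cancel] at h
    rw [h]; ring
  have hbd : ‖(∑' n : ℤ, cexp (-π * a * n ^ 2 + 2 * π * (-I * y) * n)) - 1‖ ≤ 2 * r / (1 - r) := by
    rw [hsum3]
    exact tsum_of_norm_bounded hS hterm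
  rw [key] at hbd
  set G : ℝ := ∑' k : ℤ, Real.exp (-(s * q) * ((k : ℝ) + y) ^ 2) with hG
  have hbd2 : |1 / Real.sqrt a * G - 1| ≤ 2 * r / (1 - r) := by
    have : ((1 / Real.sqrt a : ℝ) : ℂ) * (G : ℂ) - 1 = ((1 / Real.sqrt a * G - 1 : ℝ) : ℂ) := by
      push_cast; ring
    rw [this, Complex.norm_real] at hbd
    simpa using hbd
  have hsa : Real.sqrt a = Real.sqrt (π / q) * (1 / Real.sqrt s) := by
    rw [ha]
    have : π / (s * q) = (π / q) / s := by field_simp
    rw [this, Real.sqrt_div (by positivity)]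
    ring
  rw [← hsa]
  have hsapos : 0 < Real.sqrt a := Real.sqrt_pos.2 hapos
  have e3 : G - Real.sqrt a = Real.sqrt a * (1 / Real.sqrt a * G - 1) := by
    field_simp
  rw [e3, abs_mul, abs_of_pos hsapos, mul_comm]
  apply mul_le_mul_of_nonneg_right _ hsapos.le
  refine hbd2.trans ?_
  have e4 : r = Real.exp (-(π ^ 2 / q) / s) := by
    rw [hr, ha]
    congr 1
    field_simp
  rw [← e4, div_mul_eq_mul_div]
  have h5 : 0 < 1 - Real.exp (-(π ^ 2 / q)) := by linarith
  apply div_le_div_of_nonneg_left (by positivity) h5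
  linarith

section ind

variable {E : Type} [NormedAddCommGroup E] [InnerProductSpace ℝ E]

/-- The term. -/
noncomputable def term (m : ℕ) (b : Fin m → E) (s : ℝ) (y : E) (z : Fin m → ℤ) : ℝ :=
  Real.exp (-s * ‖y + ∑ k, (z k : ℝ) • b k‖ ^ 2)

/-- The claim for given generators and constants. -/
def Cl (m : ℕ) (b : Fin m → E) (C A B : ℝ) : Prop :=
  ∀ s : ℝ, 0 < s → s ≤ 1 →
      ∀ y₀ ∈ Submodule.span ℝ (Set.range b), ∀ y₁ : E, (∀ k, inner ℝ y₁ (b k) = 0) →
        Summable (term m b s (y₀ + y₁)) ∧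
        |∑' z : Fin m → ℤ, term m b s (y₀ + y₁) z -
            C * (1 / Real.sqrt s) ^ m * Real.exp (-s * ‖y₁‖ ^ 2)| ≤
          A * Real.exp (-B / s) * (C * (1 / Real.sqrt s) ^ m * Real.exp (-s * ‖y₁‖ ^ 2))

theorem base (b : Fin 0 → E) : Cl 0 b 1 0 1 := by
  intro s hs hs1 y₀ hy₀ y₁ hy₁
  have h0 : y₀ = 0 := by
    have : Set.range b = ∅ := Set.range_eq_empty b
    rw [this, Submodule.span_empty] at hy₀
    exact (Submodule.mem_bot ℝ).1 hy₀
  subst h0
  refine ⟨(hasSum_fintype _).summable, ?_⟩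
  rw [tsum_fintype]
  simp [term]

theorem step (m : ℕ) (b : Fin (m + 1) → E) (hb : LinearIndependent ℝ b) (C A B : ℝ)
    (hC : 0 < C) (hA : 0 ≤ A) (hB : 0 < B)
    (h : Cl m (fun i => b i.castSucc) C A B) :
    ∃ C' A' B' : ℝ, 0 < C' ∧ 0 ≤ A' ∧ 0 < B' ∧ Cl (m + 1) b C' A' B' := by
  classical
  set b' : Fin m → E := fun i => b i.castSucc with hb'
  set W : Submodule ℝ E := Submodule.span ℝ (Set.range b') with hW
  have : FiniteDimensional ℝ W := FiniteDimensional.span_of_finite ℝ (Set.finite_range b')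
  set v : E := b (Fin.last m) with hv
  -- projection
  obtain ⟨w, hw, e, he, hve⟩ : ∃ w ∈ W, ∃ e ∈ Wᗮ, v = w + e :=
    W.exists_add_mem_mem_orthogonal v
  have hvW : v ∉ W := by
    have h1 := hb.notMem_span_image (s := Set.range (Fin.castSucc : Fin m → Fin (m + 1)))
      (x := Fin.last m) (by
        rintro ⟨i, hi⟩
        exact (Fin.castSucc_lt_last i).ne hi)
    have h2 : b '' Set.range (Fin.castSucc : Fin m → Fin (m + 1)) = Set.range b' := by
      rw [← Set.range_comp]; rfl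
    rw [h2] at h1
    exact h1
  have he0 : e ≠ 0 := by
    rintro rfl
    apply hvW
    rw [hve, add_zero]; exact hw
  have hq : 0 < ‖e‖ ^ 2 := by positivity
  obtain ⟨A1, B1, hA1, hB1, h1⟩ := gauss1 (‖e‖ ^ 2) hq
  refine ⟨C * Real.sqrt (π / ‖e‖ ^ 2), A * (1 + A1) + A1, min B B1, by positivity, by positivity,
    lt_min hB hB1, ?_⟩
  intro s hs hs1 y₀ hy₀ y₁ hy₁
  -- decompose `y₀`
  obtain ⟨w₀, hw₀, τ, hy₀e⟩ : ∃ w₀ ∈ W, ∃ τ : ℝ, y₀ = w₀ + τ • v := by
    have hr : Set.range b = Set.range b' ∪ {v} := by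
      ext x
      constructor
      · rintro ⟨i, rfl⟩
        refine Fin.lastCases ?_ (fun j => ?_) i
        · right; rfl
        · left; exact ⟨j, rfl⟩
      · rintro (⟨j, rfl⟩ | hx)
        · exact ⟨_, rfl⟩
        · rw [Set.mem_singleton_iff] at hx
          exact ⟨Fin.last m, by rw [hx]⟩
    rw [hr, Submodule.span_union] at hy₀
    obtain ⟨a, ha, c, hc, rfl⟩ := Submodule.mem_sup.1 hy₀
    obtain ⟨τ, rfl⟩ := Submodule.mem_span_singleton.1 hc
    exact ⟨a, ha, τ, rfl⟩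
  have hy₁b' : ∀ k, inner ℝ y₁ (b' k) = 0 := fun k => hy₁ _
  have hy₁W : ∀ x ∈ W, inner ℝ y₁ x = 0 := by
    intro x hx
    induction hx using Submodule.span_induction with
    | mem x hx => obtain ⟨k, rfl⟩ := hx; exact hy₁b' k
    | zero => simp
    | add x y _ _ hx hy => rw [inner_add_right, hx, hy, add_zero]
    | smul c x _ hx => rw [inner_smul_right, hx, mul_zero]
  have hy₁e : inner ℝ y₁ e = 0 := by
    have h2 : inner ℝ y₁ v = 0 := hy₁ (Fin.last m)
    rw [hve, inner_add_right, hy₁W w hw, zero_add] at h2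
    exact h2
  have heb' : ∀ k, inner ℝ e (b' k) = 0 := by
    intro k
    have h2 := (Submodule.mem_orthogonal W e).1 he (b' k) (Submodule.subset_span ⟨k, rfl⟩)
    rw [real_inner_comm]; exact h2
  -- the inner vectors
  have hIH : ∀ z : ℤ, Summable (term m b' s ((w₀ + (τ + z) • w) + (y₁ + (τ + z) • e))) ∧
      |∑' z' : Fin m → ℤ, term m b' s ((w₀ + (τ + z) • w) + (y₁ + (τ + z) • e)) z' -
        C * (1 / Real.sqrt s) ^ m * Real.exp (-s * ‖y₁ + ((τ + z) : ℝ) • e‖ ^ 2)| ≤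
        A * Real.exp (-B / s) *
          (C * (1 / Real.sqrt s) ^ m * Real.exp (-s * ‖y₁ + ((τ + z) : ℝ) • e‖ ^ 2)) := by
    intro z
    refine h s hs hs1 _ (W.add_mem hw₀ (W.smul_mem _ hw)) _ ?_
    intro k
    rw [inner_add_left, inner_smul_left, hy₁b' k, heb' k]
    simp
  have hnorm : ∀ z : ℤ, ‖y₁ + ((τ + z) : ℝ) • e‖ ^ 2 = ‖y₁‖ ^ 2 + ‖e‖ ^ 2 * ((z : ℝ) + τ) ^ 2 := by
    intro z
    have h2 : inner ℝ y₁ (((τ + z) : ℝ) • e) = 0 := by
      rw [inner_smul_right, hy₁e, mul_zero]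
    have := norm_add_sq_real y₁ (((τ + z) : ℝ) • e)
    rw [this, h2, norm_smul, mul_pow, Real.norm_eq_abs, sq_abs]
    ring
  set M : ℝ := C * (1 / Real.sqrt s) ^ m * Real.exp (-s * ‖y₁‖ ^ 2) with hM
  have hMpos : 0 < M := by positivity
  have hexp : ∀ z : ℤ, C * (1 / Real.sqrt s) ^ m * Real.exp (-s * ‖y₁ + ((τ + z) : ℝ) • e‖ ^ 2) =
      M * Real.exp (-(s * ‖e‖ ^ 2) * ((z : ℝ) + τ) ^ 2) := by
    intro z
    rw [hnorm, hM, mul_assoc, mul_assoc, mul_assoc, ← Real.exp_add]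
    congr 3
    ring
  simp only [hexp] at hIH
  -- identify the terms
  have hterm : ∀ p : ℤ × (Fin m → ℤ), term (m + 1) b s (y₀ + y₁)
      ((Fin.snocEquiv (fun _ => ℤ)) p) =
      term m b' s ((w₀ + (τ + p.1) • w) + (y₁ + (τ + p.1) • e)) p.2 := by
    rintro ⟨z, z'⟩
    unfold term
    congr 3
    rw [Fin.sum_univ_castSucc]
    simp only [Fin.snocEquiv_apply, Fin.snoc_castSucc, Fin.snoc_last]
    rw [hy₀e, ← hv, hve]
    simp only [hb']
    congr 1
    module
  set G : ℝ := ∑' k : ℤ, Real.exp (-(s * ‖e‖ ^ 2) * ((k : ℝ) + τ) ^ 2) with hG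
  have hGs : Summable (fun k : ℤ => Real.exp (-(s * ‖e‖ ^ 2) * ((k : ℝ) + τ) ^ 2)) :=
    gauss_summable _ (by positivity) τ
  have hnn : ∀ z : ℤ, 0 ≤ ∑' z' : Fin m → ℤ,
      term m b' s ((w₀ + (τ + z) • w) + (y₁ + (τ + z) • e)) z' := fun z =>
    tsum_nonneg fun _ => (Real.exp_pos _).le
  have hSs : Summable (fun z : ℤ => ∑' z' : Fin m → ℤ,
      term m b' s ((w₀ + (τ + z) • w) + (y₁ + (τ + z) • e)) z') := by
    refine Summable.of_nonneg_of_le hnn (fun z => ?_)
      ((hGs.mul_left M).mul_left (1 + A * Real.exp (-B / s)))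
    have := (abs_le.1 (hIH z).2).2
    linarith
  have hPs : Summable (fun p : ℤ × (Fin m → ℤ) =>
      term m b' s ((w₀ + (τ + p.1) • w) + (y₁ + (τ + p.1) • e)) p.2) := by
    refine (summable_prod_of_nonneg (fun p => (Real.exp_pos _).le)).2 ⟨fun z => (hIH z).1, hSs⟩
  have hTs : Summable (term (m + 1) b s (y₀ + y₁)) := by
    rw [← (Fin.snocEquiv (fun _ => ℤ)).summable_iff]
    refine hPs.congr fun p => ?_
    exact (hterm p).symm
  refine ⟨hTs, ?_⟩
  have hT : ∑' z : Fin (m + 1) → ℤ, term (m + 1) b s (y₀ + y₁) z =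
      ∑' z : ℤ, ∑' z' : Fin m → ℤ,
        term m b' s ((w₀ + (τ + z) • w) + (y₁ + (τ + z) • e)) z' := by
    rw [← (Fin.snocEquiv (fun _ => ℤ)).tsum_eq]
    rw [tsum_congr hterm]
    exact hPs.tsum_prod' fun z => (hIH z).1
  rw [hT]
  set T : ℝ := ∑' z : ℤ, ∑' z' : Fin m → ℤ,
        term m b' s ((w₀ + (τ + z) • w) + (y₁ + (τ + z) • e)) z' with hTd
  have hMG : M * G = ∑' k : ℤ, M * Real.exp (-(s * ‖e‖ ^ 2) * ((k : ℝ) + τ) ^ 2) := by
    rw [tsum_mul_left]
  have hd1 : |T - M * G| ≤ A * Real.exp (-B / s) * (M * G) := by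
    rw [hMG, hTd, ← hSs.tsum_sub (hGs.mul_left M), ← tsum_mul_left]
    rw [← Real.norm_eq_abs]
    refine tsum_of_norm_bounded (((hGs.mul_left M).mul_left _).hasSum) fun z => ?_
    rw [Real.norm_eq_abs]
    exact (hIH z).2
  have hd2 := h1 s hs hs1 τ
  rw [← hG] at hd2
  set g : ℝ := Real.sqrt (π / ‖e‖ ^ 2) * (1 / Real.sqrt s) with hg
  have hgpos : 0 < g := by positivity
  have hmain : C * Real.sqrt (π / ‖e‖ ^ 2) * (1 / Real.sqrt s) ^ (m + 1) *
      Real.exp (-s * ‖y₁‖ ^ 2) = M * g := by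
    rw [hM, hg]; ring
  rw [hmain]
  set ε : ℝ := Real.exp (-min B B1 / s) with hε
  have hε1 : Real.exp (-B / s) ≤ ε := by
    apply Real.exp_le_exp.2
    apply div_le_div_of_nonneg_right _ hs.le
    linarith [min_le_left B B1]
  have hε2 : Real.exp (-B1 / s) ≤ ε := by
    apply Real.exp_le_exp.2
    apply div_le_div_of_nonneg_right _ hs.le
    linarith [min_le_right B B1]
  have hε3 : Real.exp (-B1 / s) ≤ 1 := by
    rw [Real.exp_le_one_iff]
    have : 0 < B1 / s := by positivity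
    rw [neg_div]; linarith
  have hGle : G ≤ (1 + A1) * g := by
    have := (abs_le.1 hd2).2
    have h3 : A1 * Real.exp (-B1 / s) * g ≤ A1 * 1 * g := by
      apply mul_le_mul_of_nonneg_right _ hgpos.le
      exact mul_le_mul_of_nonneg_left hε3 hA1
    linarith
  have hd3 : |M * G - M * g| ≤ A1 * ε * (M * g) := by
    rw [← mul_sub, abs_mul, abs_of_pos hMpos]
    calc M * |G - g| ≤ M * (A1 * Real.exp (-B1 / s) * g) :=
          mul_le_mul_of_nonneg_left hd2 hMpos.le
      _ ≤ M * (A1 * ε * g) := by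
          apply mul_le_mul_of_nonneg_left _ hMpos.le
          apply mul_le_mul_of_nonneg_right _ hgpos.le
          exact mul_le_mul_of_nonneg_left hε2 hA1
      _ = A1 * ε * (M * g) := by ring
  have hεpos : 0 < ε := Real.exp_pos _
  have hd4 : |T - M * G| ≤ A * (1 + A1) * ε * (M * g) := by
    refine hd1.trans ?_
    calc A * Real.exp (-B / s) * (M * G) ≤ A * ε * (M * ((1 + A1) * g)) := by
          apply mul_le_mul
          · exact mul_le_mul_of_nonneg_left hε1 hA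
          · exact mul_le_mul_of_nonneg_left hGle hMpos.le
          · apply mul_nonneg hMpos.le
            exact tsum_nonneg fun _ => (Real.exp_pos _).le
          · positivity
      _ = A * (1 + A1) * ε * (M * g) := by ring
  calc |T - M * g| = |(T - M * G) + (M * G - M * g)| := by congr 1; ring
    _ ≤ |T - M * G| + |M * G - M * g| := abs_add_le _ _
    _ ≤ A * (1 + A1) * ε * (M * g) + A1 * ε * (M * g) := add_le_add hd4 hd3
    _ = (A * (1 + A1) + A1) * ε * (M * g) := by ring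

theorem all (m : ℕ) : ∀ (b : Fin m → E), LinearIndependent ℝ b →
    ∃ C A B : ℝ, 0 < C ∧ 0 ≤ A ∧ 0 < B ∧ Cl m b C A B := by
  induction m with
  | zero => intro b _; exact ⟨1, 0, 1, one_pos, le_refl _, one_pos, base b⟩
  | succ m ih =>
    intro b hb
    obtain ⟨C, A, B, hC, hA, hB, h⟩ := ih (fun i => b i.castSucc)
      (hb.comp Fin.castSucc (Fin.castSucc_injective m))
    exact step m b hb C A B hC hA hB h

end ind

theorem stGauss : Pool.Agent.Y794.Sm.StGauss := by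
  intro E _ _ m b hb
  obtain ⟨C, A, B, hC, hA, hB, h⟩ := all m b hb
  exact ⟨C, A, B, hC, hA, hB, h⟩

end Pool.Agent.Y274.Sm.Gauss
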